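import Pool.Agent.SimplR.Arcs
import Pool.Agent.SimplV.MapS
import Pool.Agent.SimplV.Walls3

set_option autoImplicit false

/-! # Every line of a simplicial arrangement has many vertices -/

namespace Pool.Agent.SimplR

open Complex Module Pool.Agent.Simpl Pool.Agent.SimplV

/-- The functional `y - p.1 x - p.2 t` on the points `(x + y i, t)`. -/
noncomputable def lf (p : ℝ × ℝ) : (ℂ × ℝ) →ₗ[ℝ] ℝ where
  toFun x := x.1.im - p.1 * x.1.re - p.2 * x.2
  map_add' x y := by
    simp only [Prod.fst_add, Prod.snd_add, Complex.add_im, Complex.add_re]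
    ring
  map_smul' r x := by
    simp only [Prod.smul_fst, Prod.smul_snd, Complex.smul_im, Complex.smul_re, smul_eq_mul,
      RingHom.id_apply]
    ring

theorem lf_apply (p : ℝ × ℝ) (x : ℂ × ℝ) : lf p x = x.1.im - p.1 * x.1.re - p.2 * x.2 := rfl

/-- The line `y = p.1 x + p.2`. -/
noncomputable def ln (p : ℝ × ℝ) : Submodule ℝ (ℂ × ℝ) := LinearMap.ker (lf p)

theorem mem_ln {p : ℝ × ℝ} {x : ℂ × ℝ} : x ∈ ln p ↔ lf p x = 0 := Iff.rfl

/-- The point at infinity of slope `s`. -/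
noncomputable def vi (s : ℝ) : ℂ × ℝ := (⟨1, s⟩, 0)

/-- The affine point `q`. -/
noncomputable def va (q : ℝ × ℝ) : ℂ × ℝ := (⟨q.1, q.2⟩, 1)

theorem vi_mem_ln {s : ℝ} {p : ℝ × ℝ} : vi s ∈ ln p ↔ p.1 = s := by
  rw [mem_ln, lf_apply]
  simp only [vi]
  constructor <;> intro h <;> linarith

theorem vi_mem_infl (s : ℝ) : vi s ∈ infl := by
  rw [mem_infl]
  rfl

theorem vi_ne (s : ℝ) : vi s ≠ 0 := by
  intro h
  have h1 : (vi s).1.re = 0 := by
    rw [h]
    rfl
  exact one_ne_zero h1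

theorem lf_va (p q : ℝ × ℝ) : lf p (va q) = ev p q := by
  rw [lf_apply]
  simp only [va, ev]
  ring

theorem ln_inj {p p' : ℝ × ℝ} (h : ln p = ln p') : p = p' := by
  have h1 : vi p.1 ∈ ln p := vi_mem_ln.2 rfl
  rw [h, vi_mem_ln] at h1
  have h2 : va (0, p.2) ∈ ln p := by
    rw [mem_ln, lf_va]
    simp only [ev]
    ring
  rw [h, mem_ln, lf_va] at h2
  simp only [ev] at h2
  exact Prod.ext h1.symm (by linarith)

theorem walls_of {A : Finset (Submodule ℝ (ℂ × ℝ))} (hA : ∀ H ∈ A, finrank ℝ H = 2)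
    (hS : IsSimplicial A) {P : Finset (ℝ × ℝ)} (hcov : ∀ H ∈ A, H = infl ∨ ∃ p ∈ P, H = ln p)
    (hmem : ∀ p ∈ P, ln p ∈ A) : Walls P := by
  classical
  intro q hq W hWP hW
  have hc : (W.image ln).card = W.card := Finset.card_image_of_injective _ fun p p' h => ln_inj h
  rw [← hc]
  refine walls_le_three hA hS (x := va q) ?_ (W.image ln) ?_ ?_
  · intro H hH hmem'
    rcases hcov H hH with rfl | ⟨p, hp, rfl⟩
    · rw [mem_infl] at hmem'
      exact one_ne_zero hmem'
    · rw [mem_ln, lf_va] at hmem'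
      exact hq p hp hmem'
  · intro H hH
    obtain ⟨p, hp, rfl⟩ := Finset.mem_image.1 hH
    exact hmem p (hWP hp)
  · intro H hH
    obtain ⟨g, hg, rfl⟩ := Finset.mem_image.1 hH
    obtain ⟨w, hw, hw'⟩ := hW g hg
    refine ⟨va w, by rw [mem_ln, lf_va]; exact hw, fun H' hH' hne => ?_⟩
    rcases hcov H' hH' with rfl | ⟨p, hp, rfl⟩
    · refine ⟨LinearMap.snd ℝ ℂ ℝ, ?_, ?_⟩
      · ext x
        rw [LinearMap.mem_ker, mem_infl]
        rfl
      · show (0 : ℝ) < 1 * 1
        norm_num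
    · refine ⟨lf p, rfl, ?_⟩
      rw [lf_va, lf_va]
      exact hw' p hp fun e => hne (by rw [e])

theorem exists_ln {H : Submodule ℝ (ℂ × ℝ)} (hH : finrank ℝ H = 2)
    (hI : ((Complex.I, 0) : ℂ × ℝ) ∉ H) : ∃ p, H = ln p := by
  have hk : LinearMap.ker (fn H) = H := ker_fn (by rw [hH, finrank_CR])
  have h0 : fn H (Complex.I, 0) ≠ 0 := by
    intro h
    apply hI
    rw [← hk]
    exact h
  refine ⟨(-(fn H (1, 0)) / fn H (Complex.I, 0), -(fn H (0, 1)) / fn H (Complex.I, 0)), ?_⟩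
  ext x
  have hx : x = x.1.re • ((1, 0) : ℂ × ℝ) + x.1.im • ((Complex.I, 0) : ℂ × ℝ) +
      x.2 • ((0, 1) : ℂ × ℝ) := by
    refine Prod.ext ?_ ?_
    · apply Complex.ext
      · simp
      · simp
    · simp
  have h1 : fn H x = x.1.re * fn H (1, 0) + x.1.im * fn H (Complex.I, 0) +
      x.2 * fn H (0, 1) := by
    conv_lhs => rw [hx]
    rw [map_add, map_add, map_smul, map_smul, map_smul]
    rfl
  have h2 : lf (-(fn H (1, 0)) / fn H (Complex.I, 0), -(fn H (0, 1)) / fn H (Complex.I, 0)) x =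
      fn H x / fn H (Complex.I, 0) := by
    rw [lf_apply, h1]
    field_simp
    ring
  rw [mem_ln, h2, div_eq_zero_iff, or_iff_left h0]
  conv_lhs => rw [← hk]
  rfl

theorem core {A : Finset (Submodule ℝ (ℂ × ℝ))} (hA : IsArrangement A) (hS : IsSimplicial A)
    (hnp : ¬ IsNearPencil A) (hinf : infl ∈ A)
    (hI : ∀ H ∈ A, H ≠ infl → ((Complex.I, 0) : ℂ × ℝ) ∉ H) [DecidableEq (Submodule ℝ (ℂ × ℝ))] :
    A.card + 11 ≤ 9 * ((A.erase infl).image fun H => H ⊓ infl).card := by
  classical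
  have hex : ∀ H : Submodule ℝ (ℂ × ℝ), ∃ p, H ∈ A.erase infl → H = ln p := by
    intro H
    by_cases h : H ∈ A.erase infl
    · obtain ⟨h1, h2⟩ := Finset.mem_erase.1 h
      obtain ⟨p, hp⟩ := exists_ln (hA.1 H h2) (hI H h2 h1)
      exact ⟨p, fun _ => hp⟩
    · exact ⟨(0, 0), fun h' => absurd h' h⟩
  choose φ hφ using hex
  obtain ⟨P, hP⟩ : ∃ P, P = (A.erase infl).image φ := ⟨_, rfl⟩
  have hmem : ∀ p ∈ P, ln p ∈ A.erase infl := by
    intro p hp
    rw [hP] at hp
    obtain ⟨H, hH, rfl⟩ := Finset.mem_image.1 hp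
    rw [← hφ H hH]
    exact hH
  have hmem' : ∀ H ∈ A.erase infl, φ H ∈ P := by
    intro H hH
    rw [hP]
    exact Finset.mem_image_of_mem _ hH
  have hcov : ∀ H ∈ A, H = infl ∨ ∃ p ∈ P, H = ln p := by
    intro H hH
    by_cases h : H = infl
    · exact Or.inl h
    · have h1 := Finset.mem_erase.2 ⟨h, hH⟩
      exact Or.inr ⟨φ H, hmem' H h1, hφ H h1⟩
  have hcard : P.card = A.card - 1 := by
    rw [hP, Finset.card_image_of_injOn, Finset.card_erase_of_mem hinf]
    intro H hH H' hH' he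
    have he' : φ H = φ H' := he
    rw [hφ H hH, hφ H' hH', he']
  have hW : Walls P := walls_of hA.1 hS hcov fun p hp => Finset.mem_of_mem_erase (hmem p hp)
  have hall : ∀ σ : ℝ, ¬ ∀ h ∈ P, h.1 = σ := by
    intro σ h
    have h1 : vi σ ∈ ⨅ H ∈ A, H := by
      rw [Submodule.mem_iInf]
      intro H
      rw [Submodule.mem_iInf]
      intro hH
      rcases hcov H hH with rfl | ⟨p, hp, rfl⟩
      · exact vi_mem_infl σ
      · exact vi_mem_ln.2 (h p hp)
    rw [hA.2, Submodule.mem_bot] at h1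
    exact vi_ne σ h1
  have hnp' : ∀ σ : ℝ, ∀ g : ℝ × ℝ, ∃ h ∈ P, h.1 ≠ σ ∧ h ≠ g := by
    intro σ g
    by_contra hno
    push Not at hno
    by_cases hg : g ∈ P ∧ g.1 ≠ σ
    · apply hnp
      refine ⟨ln g, Finset.mem_of_mem_erase (hmem g hg.1), Submodule.span ℝ {vi σ},
        finrank_span_singleton (vi_ne σ), ?_, ?_⟩
      · rw [Submodule.span_singleton_le_iff_mem, vi_mem_ln]
        exact hg.2
      · intro H hH hne
        rw [Submodule.span_singleton_le_iff_mem]
        rcases hcov H hH with rfl | ⟨p, hp, rfl⟩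
        · exact vi_mem_infl σ
        · rw [vi_mem_ln]
          by_contra hps
          exact hne (by rw [hno p hp hps])
    · refine hall σ fun h hh => ?_
      by_contra hs
      have := hno h hh hs
      rw [this] at hh hs
      exact hg ⟨hh, hs⟩
  have hmain := card_le hW hnp'
  have hsl : (P.image Prod.fst).card ≤ ((A.erase infl).image fun H => H ⊓ infl).card := by
    have h1 : ∀ s : ℝ, ∃ H : Submodule ℝ (ℂ × ℝ), s ∈ P.image Prod.fst →
        H ∈ A.erase infl ∧ (φ H).1 = s := by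
      intro s
      by_cases h : s ∈ P.image Prod.fst
      · obtain ⟨p, hp, hps⟩ := Finset.mem_image.1 h
        rw [hP] at hp
        obtain ⟨H, hH, rfl⟩ := Finset.mem_image.1 hp
        exact ⟨H, fun _ => ⟨hH, hps⟩⟩
      · exact ⟨⊥, fun h' => absurd h' h⟩
    choose Hs hHs using h1
    refine Finset.card_le_card_of_injOn (fun s => Hs s ⊓ infl) ?_ ?_
    · intro s hs
      exact Finset.mem_coe.2 (Finset.mem_image_of_mem (fun H => H ⊓ infl)
        (hHs s (Finset.mem_coe.1 hs)).1)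
    · intro s hs s' hs' he
      obtain ⟨e1, e2⟩ := hHs s (Finset.mem_coe.1 hs)
      obtain ⟨f1, f2⟩ := hHs s' (Finset.mem_coe.1 hs')
      have h2 : vi s ∈ Hs s ⊓ infl := by
        refine ⟨?_, vi_mem_infl s⟩
        rw [hφ _ e1]
        exact vi_mem_ln.2 e2
      have he' : Hs s ⊓ infl = Hs s' ⊓ infl := he
      rw [he', hφ _ f1] at h2
      rw [← f2]
      exact (vi_mem_ln.1 h2.1).symm
  have hA1 : 1 ≤ A.card := Finset.card_pos.2 ⟨_, hinf⟩
  omega

/-- A coordinate system in which `L` is the line at infinity and no other line is vertical. -/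
theorem exists_frame {A : Finset (Submodule ℝ (Fin 3 → ℝ))} (hA : ∀ H ∈ A, finrank ℝ H = 2)
    {L : Submodule ℝ (Fin 3 → ℝ)} (hL : L ∈ A) :
    ∃ e : (Fin 3 → ℝ) ≃L[ℝ] (ℂ × ℝ), L.map e.toLinearEquiv.toLinearMap = infl ∧
      ∀ H ∈ A, H ≠ L → ((Complex.I, 0) : ℂ × ℝ) ∉ H.map e.toLinearEquiv.toLinearMap := by
  classical
  have hL2 := hA L hL
  obtain ⟨v, hv⟩ : ∃ v : L, v ≠ 0 ∧ ∀ H ∈ A, H ≠ L → (v : Fin 3 → ℝ) ∉ H := by
    have h1 : (⊤ : Submodule ℝ L) ∉ insert (⊥ : Submodule ℝ L)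
        ((A.erase L).image fun H => H.comap L.subtype) := by
      intro h
      rw [Finset.mem_insert] at h
      rcases h with h | h
      · have h2 : finrank ℝ (⊤ : Submodule ℝ L) = 2 := by rw [finrank_top, hL2]
        rw [h, finrank_bot] at h2
        omega
      · obtain ⟨H, hH, he⟩ := Finset.mem_image.1 h
        obtain ⟨hne, hHA⟩ := Finset.mem_erase.1 hH
        have h2 : L ≤ H := by
          intro x hx
          have h3 : (⟨x, hx⟩ : L) ∈ H.comap L.subtype := by
            rw [he]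
            trivial
          exact h3
        exact hne (Submodule.eq_of_le_of_finrank_eq h2 (by rw [hL2, hA H hHA])).symm
    have h2 := Subspace.biUnion_ne_univ_of_top_notMem h1
    rw [Ne, Set.eq_univ_iff_forall, not_forall] at h2
    obtain ⟨v, hv⟩ := h2
    simp only [Set.mem_iUnion, not_exists] at hv
    refine ⟨v, ?_, ?_⟩
    · intro h0
      exact hv ⊥ (Finset.mem_insert_self _ _) (by rw [h0]; exact Submodule.zero_mem _)
    · intro H hH hne hmem
      exact hv (H.comap L.subtype) (Finset.mem_insert_of_mem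
        (Finset.mem_image_of_mem _ (Finset.mem_erase.2 ⟨hne, hH⟩))) hmem
  obtain ⟨q, hq⟩ := Submodule.exists_isCompl L
  have hsum := Submodule.finrank_add_eq_of_isCompl hq
  have hq1 : finrank ℝ q = 1 := by
    rw [hL2] at hsum
    simp only [finrank_fintype_fun_eq_card, Fintype.card_fin] at hsum
    omega
  have e₀ : L ≃ₗ[ℝ] ℂ := LinearEquiv.ofFinrankEq _ _ (by rw [hL2, Complex.finrank_real_complex])
  have e₂ : q ≃ₗ[ℝ] ℝ := LinearEquiv.ofFinrankEq _ _ (by rw [hq1, finrank_self])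
  have hv0 : e₀ v ≠ 0 := fun h => hv.1 ((LinearEquiv.map_eq_zero_iff e₀).1 h)
  -- multiplication by `I / e₀ v`
  obtain ⟨e₁, he₁⟩ : ∃ e₁ : L ≃ₗ[ℝ] ℂ, e₁ v = Complex.I := by
    have hc : Complex.I / e₀ v ≠ 0 := div_ne_zero Complex.I_ne_zero hv0
    refine ⟨e₀.trans ((LinearEquiv.smulOfNeZero ℂ ℂ (Complex.I / e₀ v) hc).restrictScalars ℝ), ?_⟩
    show Complex.I / e₀ v * e₀ v = Complex.I
    field_simp
  let E : (Fin 3 → ℝ) ≃ₗ[ℝ] (ℂ × ℝ) :=
    (Submodule.prodEquivOfIsCompl L q hq).symm.trans (LinearEquiv.prodCongr e₁ e₂)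
  have hEL : ∀ x : L, E x = (e₁ x, 0) := by
    intro x
    show LinearEquiv.prodCongr e₁ e₂ ((Submodule.prodEquivOfIsCompl L q hq).symm x) = _
    rw [Submodule.prodEquivOfIsCompl_symm_apply_left]
    simp
  refine ⟨E.toContinuousLinearEquiv, ?_, ?_⟩
  · have h1 : E.toContinuousLinearEquiv.toLinearEquiv = E := LinearEquiv.ext fun _ => rfl
    rw [h1]
    have h2 : finrank ℝ (L.map E.toLinearMap) = 2 := by
      rw [← hL2]
      exact LinearEquiv.finrank_map_eq E L
    refine Submodule.eq_of_le_of_finrank_eq ?_ (by rw [h2, finrank_infl])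
    rintro y ⟨x, hx, rfl⟩
    rw [mem_infl]
    have h3 := hEL ⟨x, hx⟩
    show (E x).2 = 0
    rw [h3]
  · intro H hH hne hmem
    have h1 : E.toContinuousLinearEquiv.toLinearEquiv = E := LinearEquiv.ext fun _ => rfl
    rw [h1] at hmem
    obtain ⟨x, hx, hxe⟩ := hmem
    have h2 : E x = E (v : Fin 3 → ℝ) := by
      rw [hEL v, he₁]
      exact hxe
    have h3 : x = v := E.injective h2
    rw [h3] at hx
    exact hv.2 H hH hne hx

/-- Every line of a simplicial arrangement has at least `(n + 11) / 9` vertices. -/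
theorem line_vertices (A : Finset (Submodule ℝ (Fin 3 → ℝ))) (hA : IsArrangement A)
    (hS : IsSimplicial A) (hnp : ¬ IsNearPencil A) (L : Submodule ℝ (Fin 3 → ℝ)) (hL : L ∈ A)
    [DecidableEq (Submodule ℝ (Fin 3 → ℝ))] :
    A.card + 11 ≤ 9 * ((A.erase L).image fun H => H ⊓ L).card := by
  classical
  obtain ⟨e, heL, heI⟩ := exists_frame hA.1 hL
  have hinj := map_inj e.toLinearEquiv
  have hcard : (A.image (Submodule.map e.toLinearEquiv.toLinearMap)).card = A.card :=
    Finset.card_image_of_injective _ hinj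
  have h := core (A := A.image (Submodule.map e.toLinearEquiv.toLinearMap))
    (isArrangement_map A e.toLinearEquiv hA) (isSimplicial_map A e hS)
    (fun h => hnp (isNearPencil_map A e.toLinearEquiv h))
    (by
      rw [← heL]
      exact Finset.mem_image_of_mem _ hL)
    (by
      intro H' hH' hne
      obtain ⟨H, hH, rfl⟩ := Finset.mem_image.1 hH'
      refine heI H hH ?_
      rintro rfl
      exact hne heL)
  rw [hcard] at h
  refine h.trans (Nat.mul_le_mul_left 9 ?_)
  have h1 : (A.image (Submodule.map e.toLinearEquiv.toLinearMap)).erase infl =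
      (A.erase L).image (Submodule.map e.toLinearEquiv.toLinearMap) := by
    rw [← heL]
    ext H'
    constructor
    · intro h
      obtain ⟨h2, h3⟩ := Finset.mem_erase.1 h
      obtain ⟨H, hH, rfl⟩ := Finset.mem_image.1 h3
      exact Finset.mem_image_of_mem _ (Finset.mem_erase.2 ⟨fun e => h2 (by rw [e]), hH⟩)
    · intro h
      obtain ⟨H, hH, rfl⟩ := Finset.mem_image.1 h
      obtain ⟨h2, h3⟩ := Finset.mem_erase.1 hH
      exact Finset.mem_erase.2 ⟨fun e => h2 (hinj e), Finset.mem_image_of_mem _ h3⟩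
  rw [h1, Finset.image_image]
  have h2 : ((A.erase L).image ((fun H => H ⊓ infl) ∘
      Submodule.map e.toLinearEquiv.toLinearMap)) =
      ((A.erase L).image fun H => H ⊓ L).image (Submodule.map e.toLinearEquiv.toLinearMap) := by
    rw [Finset.image_image]
    refine Finset.image_congr fun H _ => ?_
    show H.map e.toLinearEquiv.toLinearMap ⊓ infl = (H ⊓ L).map e.toLinearEquiv.toLinearMap
    rw [← heL]
    exact (Submodule.map_inf _ e.toLinearEquiv.injective).symm
  rw [h2]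
  exact Finset.card_image_le

end Pool.Agent.SimplR
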