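import Mathlib

set_option autoImplicit false

/-! # Lines of the affine plane seen from the right end of a class of parallel lines

Lines `y = h.1 x + h.2` are pairs `h = (slope, intercept)`. -/

namespace Pool.Agent.SimplR

/-- Signed height of the point `q` over the line `y = h.1 x + h.2`. -/
def ev (h q : ℝ × ℝ) : ℝ := q.2 - h.1 * q.1 - h.2

/-- No cell has four walls among the lines of `P`. -/
def Walls (P : Finset (ℝ × ℝ)) : Prop :=
  ∀ q : ℝ × ℝ, (∀ h ∈ P, ev h q ≠ 0) → ∀ W ⊆ P,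
    (∀ g ∈ W, ∃ w : ℝ × ℝ, ev g w = 0 ∧ ∀ h ∈ P, h ≠ g → 0 < ev h q * ev h w) → W.card ≤ 3

/-- The abscissa in which the line `h` meets the line `y = σ x + u`. -/
noncomputable def X (σ : ℝ) (h : ℝ × ℝ) (u : ℝ) : ℝ := (u - h.2) / (h.1 - σ)

/-- Two consecutive lines of the class of slope `σ`. -/
def Strip (P : Finset (ℝ × ℝ)) (σ c c' : ℝ) : Prop :=
  (σ, c) ∈ P ∧ (σ, c') ∈ P ∧ c < c' ∧ ∀ d, (σ, d) ∈ P → d ≤ c ∨ c' ≤ d

/-- The line `g` is the rightmost one on the line `y = σ x + u`. -/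
def TopAt (P : Finset (ℝ × ℝ)) (σ : ℝ) (g : ℝ × ℝ) (u : ℝ) : Prop :=
  ∀ h ∈ P, h.1 ≠ σ → X σ h u ≤ X σ g u

variable {P : Finset (ℝ × ℝ)} {σ c c' : ℝ}

theorem ev_X {h : ℝ × ℝ} (hs : h.1 ≠ σ) (x u : ℝ) :
    ev h (x, σ * x + u) = (h.1 - σ) * (X σ h u - x) := by
  have h1 : h.1 - σ ≠ 0 := sub_ne_zero.2 hs
  unfold ev X
  field_simp
  ring

theorem ev_par {h : ℝ × ℝ} (hs : h.1 = σ) (x u : ℝ) : ev h (x, σ * x + u) = u - h.2 := by
  unfold ev
  simp only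
  rw [hs]
  ring

/-- The position of the point `(x, σ x + u)` with respect to the line `h`. -/
def Pos (Lf : ℝ × ℝ → Prop) (σ u x : ℝ) (h : ℝ × ℝ) : Prop :=
  (Lf h → X σ h u < x) ∧ (¬ Lf h → x < X σ h u)

theorem same {Lf : ℝ × ℝ → Prop} (hst : Strip P σ c c') {h : ℝ × ℝ} (hP : h ∈ P) {u u' x x' : ℝ}
    (hu : c ≤ u ∧ u ≤ c') (hu' : c ≤ u' ∧ u' ≤ c') (hn : h.1 = σ → h.2 ≠ u ∧ h.2 ≠ u')
    (h1 : h.1 ≠ σ → Pos Lf σ u x h) (h2 : h.1 ≠ σ → Pos Lf σ u' x' h) :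
    0 < ev h (x, σ * x + u) * ev h (x', σ * x' + u') := by
  by_cases hs : h.1 = σ
  · rw [ev_par hs, ev_par hs]
    obtain ⟨n1, n2⟩ := hn hs
    have h3 : (σ, h.2) ∈ P := by
      rw [← hs]
      exact hP
    rcases hst.2.2.2 h.2 h3 with h4 | h4
    · have e1 : h.2 < u := lt_of_le_of_ne (h4.trans hu.1) n1
      have e2 : h.2 < u' := lt_of_le_of_ne (h4.trans hu'.1) n2
      exact mul_pos (sub_pos.2 e1) (sub_pos.2 e2)
    · have e1 : u < h.2 := lt_of_le_of_ne (hu.2.trans h4) n1.symm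
      have e2 : u' < h.2 := lt_of_le_of_ne (hu'.2.trans h4) n2.symm
      exact mul_pos_of_neg_of_neg (sub_neg.2 e1) (sub_neg.2 e2)
  · rw [ev_X hs, ev_X hs]
    have h3 : 0 < (h.1 - σ) ^ 2 := by
      have := sub_ne_zero.2 hs
      positivity
    have h4 : 0 < (X σ h u - x) * (X σ h u' - x') := by
      by_cases hL : Lf h
      · exact mul_pos_of_neg_of_neg (sub_neg.2 ((h1 hs).1 hL)) (sub_neg.2 ((h2 hs).1 hL))
      · exact mul_pos (sub_pos.2 ((h1 hs).2 hL)) (sub_pos.2 ((h2 hs).2 hL))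
    calc (0 : ℝ) < (h.1 - σ) ^ 2 * ((X σ h u - x) * (X σ h u' - x')) := mul_pos h3 h4
      _ = _ := by ring

theorem no_four (hW : Walls P) (hst : Strip P σ c c') (Lf : ℝ × ℝ → Prop)
    (gap : ∀ u, c ≤ u → u ≤ c' → ∃ x, ∀ h ∈ P, h.1 ≠ σ → Pos Lf σ u x h)
    {g₁ g₂ : ℝ × ℝ} (hg₁ : g₁ ∈ P) (hg₂ : g₂ ∈ P) (hs₁ : g₁.1 ≠ σ) (hs₂ : g₂.1 ≠ σ)
    (hne : g₁ ≠ g₂) {u₁ u₂ : ℝ} (hu₁ : c < u₁ ∧ u₁ < c') (hu₂ : c < u₂ ∧ u₂ < c')
    (h₁ : ∀ h ∈ P, h.1 ≠ σ → h ≠ g₁ → Pos Lf σ u₁ (X σ g₁ u₁) h)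
    (h₂ : ∀ h ∈ P, h.1 ≠ σ → h ≠ g₂ → Pos Lf σ u₂ (X σ g₂ u₂) h) : False := by
  classical
  obtain ⟨x₀, hx₀⟩ := gap u₁ hu₁.1.le hu₁.2.le
  have hcc := hst.2.2.1
  have hoff : ∀ u, c < u → u < c' → ∀ h ∈ P, h.1 = σ → h.2 ≠ u := by
    intro u hu hu' h hP hs he
    have h3 : (σ, h.2) ∈ P := by
      rw [← hs]
      exact hP
    rcases hst.2.2.2 h.2 h3 with h4 | h4 <;> linarith
  have hq : ∀ h ∈ P, ev h (x₀, σ * x₀ + u₁) ≠ 0 := by
    intro h hP h0
    by_cases hs : h.1 = σ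
    · rw [ev_par hs] at h0
      exact hoff u₁ hu₁.1 hu₁.2 h hP hs (by linarith)
    · rw [ev_X hs] at h0
      rcases mul_eq_zero.1 h0 with h1 | h1
      · exact hs (sub_eq_zero.1 h1)
      · by_cases hL : Lf h
        · have := (hx₀ h hP hs).1 hL
          linarith
        · have := (hx₀ h hP hs).2 hL
          linarith
  have hcard : ({(σ, c), (σ, c'), g₁, g₂} : Finset (ℝ × ℝ)).card = 4 := by
    rw [Finset.card_insert_of_notMem, Finset.card_insert_of_notMem,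
      Finset.card_insert_of_notMem, Finset.card_singleton]
    · simpa using hne
    · simp only [Finset.mem_insert, Finset.mem_singleton, not_or]
      exact ⟨fun e => hs₁ (by rw [← e]), fun e => hs₂ (by rw [← e])⟩
    · simp only [Finset.mem_insert, Finset.mem_singleton, not_or]
      refine ⟨fun e => ?_, fun e => hs₁ (by rw [← e]), fun e => hs₂ (by rw [← e])⟩
      have := congrArg Prod.snd e
      simp only at this
      linarith
  have hle := hW (x₀, σ * x₀ + u₁) hq {(σ, c), (σ, c'), g₁, g₂} (by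
    intro g hg
    simp only [Finset.mem_insert, Finset.mem_singleton] at hg
    rcases hg with rfl | rfl | rfl | rfl
    · exact hst.1
    · exact hst.2.1
    · exact hg₁
    · exact hg₂) (by
    intro g hg
    simp only [Finset.mem_insert, Finset.mem_singleton] at hg
    rcases hg with rfl | rfl | rfl | rfl
    · obtain ⟨x, hx⟩ := gap c le_rfl hcc.le
      refine ⟨(x, σ * x + c), by rw [ev_par rfl]; ring, fun h hP hne' => ?_⟩
      refine same (Lf := Lf) hst hP ⟨hu₁.1.le, hu₁.2.le⟩ ⟨le_rfl, hcc.le⟩ (fun hs => ?_)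
        (hx₀ h hP) (hx h hP)
      exact ⟨hoff u₁ hu₁.1 hu₁.2 h hP hs, fun e => hne' (Prod.ext hs e)⟩
    · obtain ⟨x, hx⟩ := gap c' hcc.le le_rfl
      refine ⟨(x, σ * x + c'), by rw [ev_par rfl]; ring, fun h hP hne' => ?_⟩
      refine same (Lf := Lf) hst hP ⟨hu₁.1.le, hu₁.2.le⟩ ⟨hcc.le, le_rfl⟩ (fun hs => ?_)
        (hx₀ h hP) (hx h hP)
      exact ⟨hoff u₁ hu₁.1 hu₁.2 h hP hs, fun e => hne' (Prod.ext hs e)⟩
    · refine ⟨(X σ g u₁, σ * X σ g u₁ + u₁), by rw [ev_X hs₁]; ring, fun h hP hne' => ?_⟩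
      refine same (Lf := Lf) hst hP ⟨hu₁.1.le, hu₁.2.le⟩ ⟨hu₁.1.le, hu₁.2.le⟩ (fun hs => ?_)
        (hx₀ h hP) (fun hs => h₁ h hP hs hne')
      exact ⟨hoff u₁ hu₁.1 hu₁.2 h hP hs, hoff u₁ hu₁.1 hu₁.2 h hP hs⟩
    · refine ⟨(X σ g u₂, σ * X σ g u₂ + u₂), by rw [ev_X hs₂]; ring, fun h hP hne' => ?_⟩
      refine same (Lf := Lf) hst hP ⟨hu₁.1.le, hu₁.2.le⟩ ⟨hu₂.1.le, hu₂.2.le⟩ (fun hs => ?_)
        (hx₀ h hP) (fun hs => h₂ h hP hs hne')
      exact ⟨hoff u₁ hu₁.1 hu₁.2 h hP hs, hoff u₂ hu₂.1 hu₂.2 h hP hs⟩)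
  omega

/-- In every interval there is a height on which no two lines meet. -/
theorem exists_gen (P : Finset (ℝ × ℝ)) (σ : ℝ) {a b : ℝ} (hab : a < b) :
    ∃ u, a < u ∧ u < b ∧ ∀ h ∈ P, ∀ h' ∈ P, h.1 ≠ σ → h'.1 ≠ σ → X σ h u = X σ h' u → h = h' := by
  classical
  let B : Finset ℝ := (P ×ˢ P).image fun p =>
    (p.1.2 * (p.2.1 - σ) - p.2.2 * (p.1.1 - σ)) / (p.2.1 - p.1.1)
  obtain ⟨u, hu, huB⟩ := (Set.Ioo_infinite hab).exists_notMem_finset B
  refine ⟨u, hu.1, hu.2, ?_⟩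
  intro h hP h' hP' hs hs' he
  have e1 : h.1 - σ ≠ 0 := sub_ne_zero.2 hs
  have e2 : h'.1 - σ ≠ 0 := sub_ne_zero.2 hs'
  have e3 : (u - h.2) * (h'.1 - σ) = (u - h'.2) * (h.1 - σ) := by
    unfold X at he
    rwa [div_eq_div_iff e1 e2] at he
  by_cases hss : h'.1 = h.1
  · have e4 : (h'.2 - h.2) * (h.1 - σ) = 0 := by
      rw [hss] at e3
      linear_combination e3
    rcases mul_eq_zero.1 e4 with e5 | e5
    · exact Prod.ext hss.symm (sub_eq_zero.1 e5).symm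
    · exact absurd e5 e1
  · exfalso
    apply huB
    refine Finset.mem_image.2 ⟨(h, h'), Finset.mem_product.2 ⟨hP, hP'⟩, ?_⟩
    have e4 : h'.1 - h.1 ≠ 0 := sub_ne_zero.2 hss
    simp only
    rw [div_eq_iff e4]
    linear_combination -e3

/-- `X` is affine in `u`. -/
theorem X_comb {h : ℝ × ℝ} (hs : h.1 ≠ σ) (u v t : ℝ) :
    X σ h ((1 - t) * u + t * v) = (1 - t) * X σ h u + t * X σ h v := by
  have h1 : h.1 - σ ≠ 0 := sub_ne_zero.2 hs
  unfold X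
  field_simp
  ring

theorem X_inj {g h : ℝ × ℝ} (hg : g.1 ≠ σ) (hh : h.1 ≠ σ) {u v : ℝ} (huv : u ≠ v)
    (h1 : X σ g u = X σ h u) (h2 : X σ g v = X σ h v) : g = h := by
  have e1 : g.1 - σ ≠ 0 := sub_ne_zero.2 hg
  have e2 : h.1 - σ ≠ 0 := sub_ne_zero.2 hh
  unfold X at h1 h2
  rw [div_eq_div_iff e1 e2] at h1 h2
  have e3 : (u - v) * (h.1 - g.1) = 0 := by linear_combination h1 - h2
  have e4 : h.1 = g.1 := by
    rcases mul_eq_zero.1 e3 with e5 | e5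
    · exact absurd (sub_eq_zero.1 e5) huv
    · exact sub_eq_zero.1 e5
  have e5 : (h.2 - g.2) * (g.1 - σ) = 0 := by
    rw [e4] at h1
    linear_combination h1
  rcases mul_eq_zero.1 e5 with e6 | e6
  · exact Prod.ext e4.symm (sub_eq_zero.1 e6).symm
  · exact absurd e6 e1

/-- A line which is weakly to the left of `g` in two heights and different from `g` is strictly to
the left of `g` between them. -/
theorem X_lt {g h : ℝ × ℝ} (hg : g.1 ≠ σ) (hh : h.1 ≠ σ) (hne : h ≠ g) {a b u : ℝ}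
    (ha : a < u) (hb : u < b) (h1 : X σ h a ≤ X σ g a) (h2 : X σ h b ≤ X σ g b) :
    X σ h u < X σ g u := by
  have hab : 0 < b - a := by linarith
  obtain ⟨t, ht⟩ : ∃ t, t = (u - a) / (b - a) := ⟨_, rfl⟩
  have ht0 : 0 < t := by
    rw [ht]
    exact div_pos (by linarith) hab
  have ht1 : t < 1 := by
    rw [ht, div_lt_one hab]
    linarith
  have e : u = (1 - t) * a + t * b := by
    rw [ht]
    field_simp
    ring
  rw [e, X_comb hh, X_comb hg]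
  rcases h1.lt_or_eq with h3 | h3
  · nlinarith [mul_lt_mul_of_pos_left h3 (by linarith : 0 < 1 - t),
      mul_le_mul_of_nonneg_left h2 ht0.le]
  · rcases h2.lt_or_eq with h4 | h4
    · nlinarith [mul_lt_mul_of_pos_left h4 ht0, mul_le_mul_of_nonneg_left h1
        (by linarith : 0 ≤ 1 - t)]
    · exact absurd (X_inj hh hg (by linarith) h3 h4) hne

/-- Every strip has a line on its right. -/
theorem exists_top (hW : Walls P) (hst : Strip P σ c c') (hex : ∃ h ∈ P, h.1 ≠ σ) :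
    ∃ g ∈ P, g.1 ≠ σ ∧ TopAt P σ g c ∧ TopAt P σ g c' := by
  classical
  have hcc := hst.2.2.1
  have hF : (P.filter fun h => h.1 ≠ σ).Nonempty := by
    obtain ⟨h, hP, hs⟩ := hex
    exact ⟨h, Finset.mem_filter.2 ⟨hP, hs⟩⟩
  have hmx : ∀ u : ℝ, ∃ g ∈ P, g.1 ≠ σ ∧ TopAt P σ g u := by
    intro u
    obtain ⟨g, hg, hmax⟩ := (P.filter fun h => h.1 ≠ σ).exists_max_image (fun h => X σ h u) hF
    rw [Finset.mem_filter] at hg
    exact ⟨g, hg.1, hg.2, fun h hP hs => hmax h (Finset.mem_filter.2 ⟨hP, hs⟩)⟩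
  have gap : ∀ u, c ≤ u → u ≤ c' → ∃ x, ∀ h ∈ P, h.1 ≠ σ → Pos (fun _ => True) σ u x h := by
    intro u _ _
    obtain ⟨g, -, -, hg⟩ := hmx u
    exact ⟨X σ g u + 1, fun h hP hs => ⟨fun _ => by linarith [hg h hP hs],
      fun h0 => absurd trivial h0⟩⟩
  obtain ⟨u₁, hu₁, hu₁', hgen₁⟩ := exists_gen P σ hcc
  obtain ⟨g, hgP, hgs, hgt⟩ := hmx u₁
  -- the line `g` is the maximiser in every generic height
  have hall : ∀ u, c < u → u < c' → (∀ h ∈ P, ∀ h' ∈ P, h.1 ≠ σ → h'.1 ≠ σ →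
      X σ h u = X σ h' u → h = h') → TopAt P σ g u := by
    intro u hu hu' hgen
    obtain ⟨g₂, hg₂P, hg₂s, hg₂t⟩ := hmx u
    by_cases hgg : g = g₂
    · rw [hgg]
      exact hg₂t
    · exfalso
      refine no_four hW hst (fun _ => True) gap hgP hg₂P hgs hg₂s hgg ⟨hu₁, hu₁'⟩ ⟨hu, hu'⟩
        ?_ ?_
      · intro h hP hs hne
        refine ⟨fun _ => lt_of_le_of_ne (hgt h hP hs) fun e => hne ?_, fun h0 => absurd trivial h0⟩
        exact hgen₁ h hP g hgP hs hgs e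
      · intro h hP hs hne
        refine ⟨fun _ => lt_of_le_of_ne (hg₂t h hP hs) fun e => hne ?_, fun h0 => absurd trivial h0⟩
        exact hgen h hP g₂ hg₂P hs hg₂s e
  refine ⟨g, hgP, hgs, ?_, ?_⟩
  · intro h hP hs
    by_contra hlt
    rw [not_le] at hlt
    -- the difference is an affine function
    obtain ⟨t, ht0, ht1, ht⟩ : ∃ t : ℝ, 0 < t ∧ t ≤ 1 ∧ ∀ r, 0 ≤ r → r ≤ t →
        (1 - r) * X σ g c + r * X σ g c' < (1 - r) * X σ h c + r * X σ h c' := by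
      obtain ⟨D, hD⟩ : ∃ D, D = X σ h c - X σ g c := ⟨_, rfl⟩
      obtain ⟨D', hD'⟩ : ∃ D', D' = X σ h c' - X σ g c' := ⟨_, rfl⟩
      have hDpos : 0 < D := by rw [hD]; linarith
      refine ⟨min 1 (D / (2 * (D + |D'| + 1))), lt_min one_pos (by positivity),
        min_le_left _ _, ?_⟩
      intro r hr0 hr
      have h1 : r ≤ D / (2 * (D + |D'| + 1)) := hr.trans (min_le_right _ _)
      rw [le_div_iff₀ (by positivity)] at h1
      have h2 : -|D'| ≤ D' := neg_abs_le D'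
      have h3 : 0 < (1 - r) * D + r * D' := by
        nlinarith [mul_le_mul_of_nonneg_left h2 hr0, abs_nonneg D', mul_nonneg hr0 hDpos.le,
          mul_nonneg hr0 (abs_nonneg D')]
      rw [hD, hD'] at h3
      linarith
    obtain ⟨u, hu, hu', hgen⟩ := exists_gen P σ (a := c) (b := c + t * (c' - c))
      (by nlinarith)
    have huc : u < c' := by nlinarith
    obtain ⟨r, hr⟩ : ∃ r, r = (u - c) / (c' - c) := ⟨_, rfl⟩
    have hr0 : 0 ≤ r := by
      rw [hr]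
      exact div_nonneg (by linarith) (by linarith)
    have hrt : r ≤ t := by
      rw [hr, div_le_iff₀ (by linarith)]
      linarith
    have e : u = (1 - r) * c + r * c' := by
      have : c' - c ≠ 0 := by linarith
      rw [hr]
      field_simp
      ring
    have h1 := hall u hu huc hgen h hP hs
    have h2 := ht r hr0 hrt
    rw [← X_comb hgs, ← X_comb hs, ← e] at h2
    linarith
  · intro h hP hs
    by_contra hlt
    rw [not_le] at hlt
    obtain ⟨t, ht0, ht1, ht⟩ : ∃ t : ℝ, 0 < t ∧ t ≤ 1 ∧ ∀ r, 0 ≤ r → r ≤ t →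
        (1 - (1 - r)) * X σ g c + (1 - r) * X σ g c' <
          (1 - (1 - r)) * X σ h c + (1 - r) * X σ h c' := by
      obtain ⟨D, hD⟩ : ∃ D, D = X σ h c' - X σ g c' := ⟨_, rfl⟩
      obtain ⟨D', hD'⟩ : ∃ D', D' = X σ h c - X σ g c := ⟨_, rfl⟩
      have hDpos : 0 < D := by rw [hD]; linarith
      refine ⟨min 1 (D / (2 * (D + |D'| + 1))), lt_min one_pos (by positivity),
        min_le_left _ _, ?_⟩
      intro r hr0 hr
      have h1 : r ≤ D / (2 * (D + |D'| + 1)) := hr.trans (min_le_right _ _)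
      rw [le_div_iff₀ (by positivity)] at h1
      have h2 : -|D'| ≤ D' := neg_abs_le D'
      have h3 : 0 < (1 - r) * D + r * D' := by
        nlinarith [mul_le_mul_of_nonneg_left h2 hr0, abs_nonneg D', mul_nonneg hr0 hDpos.le,
          mul_nonneg hr0 (abs_nonneg D')]
      rw [hD, hD'] at h3
      linarith
    obtain ⟨u, hu, hu', hgen⟩ := exists_gen P σ (a := c' - t * (c' - c)) (b := c')
      (by nlinarith)
    have huc : c < u := by nlinarith
    obtain ⟨r, hr⟩ : ∃ r, r = (c' - u) / (c' - c) := ⟨_, rfl⟩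
    have hr0 : 0 ≤ r := by
      rw [hr]
      exact div_nonneg (by linarith) (by linarith)
    have hrt : r ≤ t := by
      rw [hr, div_le_iff₀ (by linarith)]
      linarith
    have e : u = (1 - (1 - r)) * c + (1 - r) * c' := by
      have : c' - c ≠ 0 := by linarith
      rw [hr]
      field_simp
      ring
    have h1 := hall u huc hu' hgen h hP hs
    have h2 := ht r hr0 hrt
    rw [← X_comb hgs, ← X_comb hs, ← e] at h2
    linarith

/-- If `g` is rightmost in a height below a strip and in a height above it, then the arrangement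
is a near-pencil. -/
theorem pencil_of_top (hW : Walls P) (hst : Strip P σ c c') {g : ℝ × ℝ} (hg : g ∈ P)
    (hs : g.1 ≠ σ) {a b : ℝ} (ha : a < c) (hb : c' < b) (h1 : TopAt P σ g a)
    (h2 : TopAt P σ g b) : ∀ h ∈ P, h.1 ≠ σ → h = g := by
  classical
  intro h₀ hh₀ hs₀
  by_contra hne₀
  have hcc := hst.2.2.1
  have hlt : ∀ u, c ≤ u → u ≤ c' → ∀ h ∈ P, h.1 ≠ σ → h ≠ g → X σ h u < X σ g u :=
    fun u hu hu' h hP hsh hne => X_lt hs hsh hne (by linarith) (by linarith)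
      (h1 h hP hsh) (h2 h hP hsh)
  have hF : (P.filter fun h => h.1 ≠ σ ∧ h ≠ g).Nonempty :=
    ⟨h₀, Finset.mem_filter.2 ⟨hh₀, hs₀, hne₀⟩⟩
  have hmx : ∀ u : ℝ, ∃ k ∈ P, k.1 ≠ σ ∧ k ≠ g ∧ ∀ h ∈ P, h.1 ≠ σ → h ≠ g →
      X σ h u ≤ X σ k u := by
    intro u
    obtain ⟨k, hk, hmax⟩ := (P.filter fun h => h.1 ≠ σ ∧ h ≠ g).exists_max_image
      (fun h => X σ h u) hF
    rw [Finset.mem_filter] at hk
    exact ⟨k, hk.1, hk.2.1, hk.2.2, fun h hP hs hne =>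
      hmax h (Finset.mem_filter.2 ⟨hP, hs, hne⟩)⟩
  have gap : ∀ u, c ≤ u → u ≤ c' → ∃ x, ∀ h ∈ P, h.1 ≠ σ → Pos (fun h => h ≠ g) σ u x h := by
    intro u hu hu'
    obtain ⟨k, hk, hks, hkg, hkm⟩ := hmx u
    have h3 := hlt u hu hu' k hk hks hkg
    refine ⟨(X σ k u + X σ g u) / 2, fun h hP hsh => ⟨fun hne => ?_, fun hne => ?_⟩⟩
    · have := hkm h hP hsh hne
      linarith
    · rw [not_not] at hne
      rw [hne]
      linarith
  obtain ⟨u₂, hu₂, hu₂', hgen⟩ := exists_gen P σ hcc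
  obtain ⟨k, hk, hks, hkg, hkm⟩ := hmx u₂
  refine no_four hW hst (fun h => h ≠ g) gap hg hk hs hks hkg.symm (u₁ := u₂) (u₂ := u₂)
    ⟨hu₂, hu₂'⟩ ⟨hu₂, hu₂'⟩ ?_ ?_
  · intro h hP hsh hne
    exact ⟨fun _ => hlt u₂ hu₂.le hu₂'.le h hP hsh hne, fun h0 => absurd hne h0⟩
  · intro h hP hsh hne
    refine ⟨fun hn => lt_of_le_of_ne (hkm h hP hsh hn) fun e => hne ?_, fun hn => ?_⟩
    · exact hgen h hP k hk hsh hks e
    · rw [not_not] at hn
      rw [hn]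
      exact hlt u₂ hu₂.le hu₂'.le k hk hks hkg

end Pool.Agent.SimplR
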