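import Pool.Agent.SimplR.Aff

set_option autoImplicit false

/-! # The number of lines in terms of the number of slopes -/

namespace Pool.Agent.SimplR

/-- The lowest line of slope `s` is on the right of a strip of the class `σ < s`. -/
def Up (P : Finset (ℝ × ℝ)) (σ s : ℝ) : Prop :=
  ∃ c c' b x : ℝ, (σ, c) ∈ P ∧ (σ, c') ∈ P ∧ c < c' ∧ (s, b) ∈ P ∧ σ < s ∧
    s * x + b = σ * x + c' ∧ ∀ h ∈ P, σ < h.1 → σ * x + c' ≤ h.1 * x + h.2

/-- Reflection in the `x`-axis. -/
noncomputable def mir (P : Finset (ℝ × ℝ)) : Finset (ℝ × ℝ) := P.image fun h => (-h.1, -h.2)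

variable {P : Finset (ℝ × ℝ)}

theorem noncross {σ σ' s s' : ℝ} (h1 : Up P σ s) (h2 : Up P σ' s') (h3 : σ < σ') (h4 : σ' < s)
    (h5 : s < s') : False := by
  obtain ⟨c₁, c₁', b₁, x₁, -, -, -, e4, e5, e6, e7⟩ := h1
  obtain ⟨c₂, c₂', b₂, x₂, f1, f2, f3, f4, f5, f6, f7⟩ := h2
  have k1 := f7 _ e4 h4
  have k2 := e7 _ f4 (by simp only; linarith)
  have k3 := e7 _ f1 h3
  simp only at k1 k2 k3
  have k4 : (s' - s) * (x₂ - x₁) ≤ 0 := by nlinarith
  have k5 : 0 < (s - σ') * (x₂ - x₁) := by nlinarith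
  have k6 : 0 < x₂ - x₁ := (pos_iff_pos_of_mul_pos k5).1 (by linarith)
  nlinarith [mul_pos (sub_pos.2 h5) k6]

theorem up_of_top {σ c c' : ℝ} (hst : Strip P σ c c') {g : ℝ × ℝ} (hg : g ∈ P) (hs : σ < g.1)
    (ht : TopAt P σ g c') : Up P σ g.1 := by
  have h0 : g.1 - σ ≠ 0 := by linarith
  refine ⟨c, c', g.2, X σ g c', hst.1, hst.2.1, hst.2.2.1, hg, hs, ?_, ?_⟩
  · unfold X
    field_simp
    ring
  · intro h hP hh
    have h1 := ht h hP (by linarith)
    have h2 : 0 < h.1 - σ := by linarith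
    unfold X at h1 ⊢
    rw [div_le_iff₀ h2] at h1
    linarith

theorem up_of_top' {σ c c' : ℝ} (hst : Strip P σ c c') {g : ℝ × ℝ} (hg : g ∈ P) (hs : g.1 < σ)
    (ht : TopAt P σ g c) : Up (mir P) (-σ) (-g.1) := by
  classical
  have h0 : g.1 - σ ≠ 0 := by linarith
  refine ⟨-c', -c, -g.2, X σ g c, ?_, ?_, neg_lt_neg hst.2.2.1, ?_, neg_lt_neg hs, ?_, ?_⟩
  · exact Finset.mem_image.2 ⟨_, hst.2.1, rfl⟩
  · exact Finset.mem_image.2 ⟨_, hst.1, rfl⟩
  · exact Finset.mem_image.2 ⟨_, hg, rfl⟩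
  · unfold X
    field_simp
    ring
  · intro h' hP' hh'
    obtain ⟨h, hP, rfl⟩ := Finset.mem_image.1 hP'
    simp only at hh' ⊢
    have h1 := ht h hP (by linarith)
    have h2 : h.1 - σ < 0 := by linarith
    have h3 : X σ h c = (c - h.2) / (h.1 - σ) := rfl
    rw [h3, div_le_iff_of_neg h2] at h1
    linarith

/-- Noncrossing arcs. -/
theorem arcs (S : Finset ℝ) (hS : 2 ≤ S.card) (U : Finset (ℝ × ℝ))
    (hU : ∀ p ∈ U, p.1 ∈ S ∧ p.2 ∈ S ∧ p.1 < p.2)
    (nc : ∀ p ∈ U, ∀ q ∈ U, p.1 < q.1 → q.1 < p.2 → p.2 < q.2 → False) :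
    U.card + 3 ≤ 2 * S.card := by
  classical
  have hne : S.Nonempty := Finset.card_pos.1 (by omega)
  obtain ⟨a, haS, ha⟩ := S.exists_min_image id hne
  obtain ⟨z, hzS, hz⟩ := S.exists_max_image id hne
  simp only [id] at ha hz
  have haz : a ≠ z := by
    rintro rfl
    have : S ⊆ {a} := fun x hx => Finset.mem_singleton.2 (le_antisymm (hz x hx) (ha x hx))
    have := Finset.card_le_card this
    rw [Finset.card_singleton] at this
    omega
  -- shortest arcs
  let U₁ := U.filter fun p => ∀ t, (p.1, t) ∈ U → p.2 ≤ t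
  let U₂ := U.filter fun p => ¬ ∀ t, (p.1, t) ∈ U → p.2 ≤ t
  have hsum : U.card = U₁.card + U₂.card := (Finset.card_filter_add_card_filter_not _).symm
  have h1 : U₁.card ≤ (S.erase z).card := by
    refine Finset.card_le_card_of_injOn Prod.fst ?_ ?_
    · intro p hp
      have hpU := (Finset.mem_filter.1 (Finset.mem_coe.1 hp)).1
      obtain ⟨e1, e2, e3⟩ := hU p hpU
      exact Finset.mem_coe.2 (Finset.mem_erase.2 ⟨fun e => by
        have := hz _ e2
        rw [← e] at this
        linarith, e1⟩)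
    · intro p hp q hq hpq
      obtain ⟨hpU, hp2⟩ := Finset.mem_filter.1 (Finset.mem_coe.1 hp)
      obtain ⟨hqU, hq2⟩ := Finset.mem_filter.1 (Finset.mem_coe.1 hq)
      refine Prod.ext hpq (le_antisymm (hp2 q.2 ?_) (hq2 p.2 ?_))
      · rw [hpq]
        exact hqU
      · rw [← hpq]
        exact hpU
  -- the next shorter arc
  have hpred : ∀ p : ℝ × ℝ, ∃ t, p ∈ U₂ → (p.1, t) ∈ U ∧ t < p.2 ∧
      ∀ t', (p.1, t') ∈ U → t' < p.2 → t' ≤ t := by
    intro p
    by_cases hp : p ∈ U₂
    · obtain ⟨hpU, hp2⟩ := Finset.mem_filter.1 hp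
      push Not at hp2
      obtain ⟨t₀, ht₀, ht₀'⟩ := hp2
      have hF : (U.filter fun q => q.1 = p.1 ∧ q.2 < p.2).Nonempty :=
        ⟨(p.1, t₀), Finset.mem_filter.2 ⟨ht₀, rfl, ht₀'⟩⟩
      obtain ⟨q, hq, hmax⟩ := (U.filter fun q => q.1 = p.1 ∧ q.2 < p.2).exists_max_image
        Prod.snd hF
      obtain ⟨hqU, hq1, hq2⟩ := Finset.mem_filter.1 hq
      refine ⟨q.2, fun _ => ⟨?_, hq2, fun t' ht' hlt => ?_⟩⟩
      · rw [← hq1]
        exact hqU
      · exact hmax (p.1, t') (Finset.mem_filter.2 ⟨ht', rfl, hlt⟩)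
    · exact ⟨0, fun h => absurd h hp⟩
  choose φ hφ using hpred
  have h2 : U₂.card ≤ ((S.erase z).erase a).card := by
    refine Finset.card_le_card_of_injOn φ ?_ ?_
    · intro p hp
      have hp' := Finset.mem_coe.1 hp
      have hpU := (Finset.mem_filter.1 hp').1
      obtain ⟨f1, f2, f3⟩ := hφ p hp'
      obtain ⟨e1, e2, e3⟩ := hU p hpU
      obtain ⟨g1, g2, g3⟩ := hU _ f1
      simp only at g1 g2 g3
      refine Finset.mem_coe.2 (Finset.mem_erase.2 ⟨?_, Finset.mem_erase.2 ⟨?_, g2⟩⟩)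
      · have := ha _ g1
        intro e
        rw [e] at g3
        linarith
      · have := hz _ e2
        intro e
        rw [e] at f2
        linarith
    · intro p hp q hq hpq
      have hp' := Finset.mem_coe.1 hp
      have hq' := Finset.mem_coe.1 hq
      have hpU := (Finset.mem_filter.1 hp').1
      have hqU := (Finset.mem_filter.1 hq').1
      obtain ⟨f1, f2, f3⟩ := hφ p hp'
      obtain ⟨k1, k2, k3⟩ := hφ q hq'
      have g3 := (hU _ f1).2.2
      have g3' := (hU _ k1).2.2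
      simp only at g3 g3'
      rcases lt_trichotomy p.1 q.1 with hlt | heq | hgt
      · exfalso
        refine nc _ f1 q hqU hlt ?_ ?_
        · simp only
          rw [hpq]
          exact g3'
        · simp only
          rw [hpq]
          exact k2
      · refine Prod.ext heq ?_
        rcases lt_trichotomy p.2 q.2 with hlt | heq2 | hgt
        · exfalso
          have := k3 p.2 (by rw [← heq]; exact hpU) hlt
          rw [← hpq] at this
          linarith
        · exact heq2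
        · exfalso
          have := f3 q.2 (by rw [heq]; exact hqU) hgt
          rw [hpq] at this
          linarith
      · exfalso
        refine nc _ k1 p hpU hgt ?_ ?_
        · simp only
          rw [← hpq]
          exact g3
        · simp only
          rw [← hpq]
          exact f2
  rw [Finset.card_erase_of_mem (Finset.mem_erase.2 ⟨haz, haS⟩), Finset.card_erase_of_mem hzS] at h2
  rw [Finset.card_erase_of_mem hzS] at h1
  omega

/-- Two rightmost lines of the same slope are equal. -/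
theorem top_unique {σ u v : ℝ} {g h : ℝ × ℝ} (hg : g ∈ P) (hh : h ∈ P) (hs : g.1 ≠ σ)
    (he : g.1 = h.1) (h1 : TopAt P σ g u) (h2 : TopAt P σ h v) : g = h := by
  have hs' : h.1 ≠ σ := by
    rw [← he]
    exact hs
  have k1 := h1 h hh hs'
  have k2 := h2 g hg hs
  unfold X at k1 k2
  rw [← he] at k1 k2
  rcases lt_or_gt_of_ne hs with h3 | h3
  · have h4 : g.1 - σ < 0 := by linarith
    rw [div_le_div_right_of_neg h4] at k1 k2
    exact Prod.ext he (by linarith)
  · have h4 : 0 < g.1 - σ := by linarith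
    rw [div_le_div_iff_of_pos_right h4] at k1 k2
    exact Prod.ext he (by linarith)

open Classical in
/-- The slopes of the lines on the right of the strips of the class `σ`. -/
noncomputable def Tp (P : Finset (ℝ × ℝ)) (σ : ℝ) : Finset ℝ :=
  (P.image Prod.fst).filter fun s => σ < s ∧ Up P σ s

open Classical in
noncomputable def Tm (P : Finset (ℝ × ℝ)) (σ : ℝ) : Finset ℝ :=
  (P.image Prod.fst).filter fun s => s < σ ∧ Up (mir P) (-σ) (-s)

open Classical in
theorem class_card (hW : Walls P) (hnp : ∀ σ : ℝ, ∀ g : ℝ × ℝ, ∃ h ∈ P, h.1 ≠ σ ∧ h ≠ g)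
    {σ : ℝ} (hσ : σ ∈ P.image Prod.fst) :
    (P.filter fun h => h.1 = σ).card ≤ 2 * ((Tp P σ).card + (Tm P σ).card) + 1 := by
  -- the intercepts of the class
  let C := (P.filter fun h => h.1 = σ).image Prod.snd
  have hC : ∀ c, c ∈ C ↔ (σ, c) ∈ P := by
    intro c
    constructor
    · intro hc
      obtain ⟨h, hh, rfl⟩ := Finset.mem_image.1 hc
      obtain ⟨h1, rfl⟩ := Finset.mem_filter.1 hh
      exact h1
    · intro hc
      exact Finset.mem_image.2 ⟨(σ, c), Finset.mem_filter.2 ⟨hc, rfl⟩, rfl⟩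
  have hCc : C.card = (P.filter fun h => h.1 = σ).card := by
    refine Finset.card_image_of_injOn fun h hh h' hh' e => ?_
    have e1 := (Finset.mem_filter.1 (Finset.mem_coe.1 hh)).2
    have e2 := (Finset.mem_filter.1 (Finset.mem_coe.1 hh')).2
    exact Prod.ext (e1.trans e2.symm) e
  have hCne : C.Nonempty := by
    obtain ⟨h, hh, he⟩ := Finset.mem_image.1 hσ
    refine ⟨h.2, (hC _).2 ?_⟩
    rw [← he]
    exact hh
  obtain ⟨z, hzC, hz⟩ := C.exists_max_image id hCne
  simp only [id] at hz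
  have hnext : ∀ b : ℝ, ∃ g : ℝ × ℝ, ∃ b' : ℝ, b ∈ C.erase z → Strip P σ b b' ∧ g ∈ P ∧
      g.1 ≠ σ ∧ TopAt P σ g b ∧ TopAt P σ g b' := by
    intro b
    by_cases hb : b ∈ C.erase z
    · obtain ⟨hbz, hbC⟩ := Finset.mem_erase.1 hb
      have hF : (C.filter fun x => b < x).Nonempty :=
        ⟨z, Finset.mem_filter.2 ⟨hzC, lt_of_le_of_ne (hz b hbC) hbz⟩⟩
      obtain ⟨b', hb', hmin⟩ := (C.filter fun x => b < x).exists_min_image id hF
      obtain ⟨hb'C, hbb'⟩ := Finset.mem_filter.1 hb'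
      have hst : Strip P σ b b' := by
        refine ⟨(hC _).1 hbC, (hC _).1 hb'C, hbb', fun d hd => ?_⟩
        rcases le_or_gt d b with h1 | h1
        · exact Or.inl h1
        · exact Or.inr (hmin d (Finset.mem_filter.2 ⟨(hC _).2 hd, h1⟩))
      obtain ⟨h₀, hh₀, hs₀, -⟩ := hnp σ (0, 0)
      obtain ⟨g, hg, hgs, h1, h2⟩ := exists_top hW hst ⟨h₀, hh₀, hs₀⟩
      exact ⟨g, b', fun _ => ⟨hst, hg, hgs, h1, h2⟩⟩
    · exact ⟨(0, 0), 0, fun h => absurd h hb⟩
  choose g nx hgn using hnext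
  have hle : (C.erase z).card ≤ 2 * (Tp P σ ∪ Tm P σ).card := by
    refine Finset.card_le_mul_card_image_of_maps_to (f := fun b => (g b).1) ?_ 2 ?_
    · intro b hb
      obtain ⟨h1, h2, h3, h4, h5⟩ := hgn b hb
      rw [Finset.mem_union]
      rcases lt_or_gt_of_ne h3 with h6 | h6
      · right
        exact Finset.mem_filter.2 ⟨Finset.mem_image_of_mem _ h2, h6, up_of_top' h1 h2 h6 h4⟩
      · left
        exact Finset.mem_filter.2 ⟨Finset.mem_image_of_mem _ h2, h6, up_of_top h1 h2 h6 h5⟩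
    · intro s _
      by_contra hcon
      rw [not_le] at hcon
      obtain ⟨F, hF⟩ : ∃ F, F = (C.erase z).filter fun b => (g b).1 = s := ⟨_, rfl⟩
      rw [← hF] at hcon
      have hFm : ∀ b ∈ F, b ∈ C.erase z ∧ (g b).1 = s := by
        intro b hb
        rw [hF] at hb
        exact Finset.mem_filter.1 hb
      have hFne : F.Nonempty := Finset.card_pos.1 (by omega)
      obtain ⟨a, haF, ha⟩ := F.exists_min_image id hFne
      obtain ⟨d, hdF, hd⟩ := F.exists_max_image id hFne
      simp only [id] at ha hd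
      obtain ⟨b, hbF, hba, hbd⟩ : ∃ b ∈ F, b ≠ a ∧ b ≠ d := by
        by_contra hno
        push Not at hno
        have h1 : F ⊆ {a, d} := by
          intro x hx
          rw [Finset.mem_insert, Finset.mem_singleton]
          by_cases hxa : x = a
          · exact Or.inl hxa
          · exact Or.inr (hno x hx hxa)
        have h2 := (Finset.card_le_card h1).trans Finset.card_le_two
        omega
      have hab : a < b := lt_of_le_of_ne (ha b hbF) hba.symm
      have hbd' : b < d := lt_of_le_of_ne (hd b hbF) hbd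
      obtain ⟨ma, sa⟩ := hFm a haF
      obtain ⟨mb, sb⟩ := hFm b hbF
      obtain ⟨md, sd⟩ := hFm d hdF
      obtain ⟨a1, a2, a3, a4, a5⟩ := hgn a ma
      obtain ⟨b1, b2, b3, b4, b5⟩ := hgn b mb
      obtain ⟨d1, d2, d3, d4, d5⟩ := hgn d md
      have hgg : g a = g d := top_unique a2 d2 a3 (sa.trans sd.symm) a4 d5
      have hnx : nx b ≤ d := by
        rcases b1.2.2.2 d d1.1 with h1 | h1
        · exact absurd h1 (not_le.2 hbd')
        · exact h1
      have hpen := pencil_of_top hW b1 a2 a3 hab (lt_of_le_of_lt hnx d1.2.2.1) a4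
        (by rw [hgg]; exact d5)
      obtain ⟨h₀, hh₀, hs₀, hne₀⟩ := hnp σ (g a)
      exact hne₀ (hpen h₀ hh₀ hs₀)
  rw [Finset.card_erase_of_mem hzC, hCc] at hle
  have h3 := Finset.card_union_le (Tp P σ) (Tm P σ)
  omega

theorem card_le (hW : Walls P) (hnp : ∀ σ : ℝ, ∀ g : ℝ × ℝ, ∃ h ∈ P, h.1 ≠ σ ∧ h ≠ g) :
    P.card + 12 ≤ 9 * (P.image Prod.fst).card := by
  classical
  obtain ⟨S, hS⟩ : ∃ S, S = P.image Prod.fst := ⟨_, rfl⟩
  have hS2 : 2 ≤ S.card := by
    obtain ⟨h₁, hh₁, -, -⟩ := hnp 0 (0, 0)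
    obtain ⟨h₂, hh₂, hs₂, -⟩ := hnp h₁.1 (0, 0)
    have h3 : ({h₁.1, h₂.1} : Finset ℝ) ⊆ S := by
      intro x hx
      rw [Finset.mem_insert, Finset.mem_singleton] at hx
      rw [hS]
      rcases hx with rfl | rfl
      · exact Finset.mem_image_of_mem _ hh₁
      · exact Finset.mem_image_of_mem _ hh₂
    have h4 := Finset.card_le_card h3
    rwa [Finset.card_pair hs₂.symm] at h4
  have hsum : P.card = ∑ σ ∈ S, (P.filter fun h => h.1 = σ).card := by
    rw [hS]
    exact Finset.card_eq_sum_card_image Prod.fst P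
  have hU : ∑ σ ∈ S, (Tp P σ).card + 3 ≤ 2 * S.card := by
    have h1 := arcs S hS2 ((S ×ˢ S).filter fun p => p.1 < p.2 ∧ Up P p.1 p.2) (by
      intro p hp
      obtain ⟨h1, h2, -⟩ := Finset.mem_filter.1 hp
      rw [Finset.mem_product] at h1
      exact ⟨h1.1, h1.2, h2⟩) (by
      intro p hp q hq h3 h4 h5
      exact noncross (Finset.mem_filter.1 hp).2.2 (Finset.mem_filter.1 hq).2.2 h3 h4 h5)
    have h2 : ((S ×ˢ S).filter fun p => p.1 < p.2 ∧ Up P p.1 p.2).card =
        ∑ σ ∈ S, (Tp P σ).card := by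
      unfold Tp
      rw [← hS]
      simp only [Finset.card_filter, Finset.sum_product]
    rw [← h2]
    exact h1
  have hD : ∑ σ ∈ S, (Tm P σ).card + 3 ≤ 2 * S.card := by
    have hc : (S.image fun x => -x).card = S.card := Finset.card_image_of_injective _ neg_injective
    have h1 := arcs (S.image fun x => -x) (by rw [hc]; exact hS2)
      (((S ×ˢ S).filter fun p => p.2 < p.1 ∧ Up (mir P) (-p.1) (-p.2)).image
        fun p => (-p.1, -p.2)) (by
      intro p' hp'
      obtain ⟨p, hp, rfl⟩ := Finset.mem_image.1 hp'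
      obtain ⟨h1, h2, -⟩ := Finset.mem_filter.1 hp
      rw [Finset.mem_product] at h1
      exact ⟨Finset.mem_image_of_mem _ h1.1, Finset.mem_image_of_mem _ h1.2, neg_lt_neg h2⟩) (by
      intro p' hp' q' hq' h3 h4 h5
      obtain ⟨p, hp, rfl⟩ := Finset.mem_image.1 hp'
      obtain ⟨q, hq, rfl⟩ := Finset.mem_image.1 hq'
      exact noncross (Finset.mem_filter.1 hp).2.2 (Finset.mem_filter.1 hq).2.2 h3 h4 h5)
    rw [hc, Finset.card_image_of_injective] at h1
    · have h2 : ((S ×ˢ S).filter fun p => p.2 < p.1 ∧ Up (mir P) (-p.1) (-p.2)).card =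
          ∑ σ ∈ S, (Tm P σ).card := by
        unfold Tm
        rw [← hS]
        simp only [Finset.card_filter, Finset.sum_product]
      rw [← h2]
      exact h1
    · intro p q hpq
      have e1 := congrArg Prod.fst hpq
      have e2 := congrArg Prod.snd hpq
      simp only at e1 e2
      exact Prod.ext (neg_injective e1) (neg_injective e2)
  have hcl : ∀ σ ∈ S, (P.filter fun h => h.1 = σ).card ≤
      2 * ((Tp P σ).card + (Tm P σ).card) + 1 := by
    intro σ hσ
    rw [hS] at hσ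
    exact class_card hW hnp hσ
  have h1 := Finset.sum_le_sum hcl
  rw [← hsum, Finset.sum_add_distrib, ← Finset.mul_sum, Finset.sum_add_distrib, Finset.sum_const,
    smul_eq_mul, mul_one] at h1
  rw [← hS]
  omega

end Pool.Agent.SimplR
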